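import Pool.Agent.W999.DL.Stms

/-! # DL-BAD : few bad `y` -/

namespace Pool.Agent.W970.DL

open Pool.Agent.W999.DL

/-- the fibre of the coordinate `(y i).2` -/
lemma fibre (J Q : ℕ) [NeZero Q] (i : Fin J) (c : ZMod Q) (A : Finset (Y J Q))
    (hA : ∀ y ∈ A, (y i).2 = c) : Q * A.card ≤ nN J Q := by
  classical
  have h1 : nN J Q = (Finset.univ : Finset (Y J Q)).card := by
    unfold nN
    rw [Finset.card_univ, Fintype.card_fun, Fintype.card_prod, ZMod.card, Fintype.card_fin,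
      pow_mul, pow_two]
  have h2 : Q * A.card = ((Finset.univ : Finset (ZMod Q)) ×ˢ A).card := by
    rw [Finset.card_product, Finset.card_univ, ZMod.card]
  rw [h1, h2]
  apply Finset.card_le_card_of_injOn (fun p => Function.update p.2 i ((p.2 i).1, p.1))
  · intro p _
    exact Finset.mem_coe.2 (Finset.mem_univ _)
  · intro p hp p' hp' heq
    have hp2 := hA _ (Finset.mem_product.1 hp).2
    have hp2' := hA _ (Finset.mem_product.1 hp').2
    have hi := congrFun heq i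
    simp only [Function.update_self] at hi
    obtain ⟨e1, e2⟩ := Prod.mk.inj hi
    refine Prod.ext e2 ?_
    funext j
    by_cases hj : j = i
    · subst hj
      exact Prod.ext e1 (hp2.trans hp2'.symm)
    · have := congrFun heq j
      simpa only [Function.update_of_ne hj] using this

lemma nat_eq {J Q v v' w x : ℕ} (hQ : 2 ^ (2 * J) ≤ Q) (hv : v < 2 ^ J)
    (hv' : v' < 2 ^ J) (hw : w < 2 ^ J) (hx : x < 2 ^ J)
    (h : ((w + 2 ^ J * x : ℕ) : ZMod Q) = ((v + 2 ^ J * v' : ℕ) : ZMod Q)) : v = w ∧ v' = x := by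
  have hlt : ∀ a b : ℕ, a < 2 ^ J → b < 2 ^ J → a + 2 ^ J * b < Q := by
    intro a b ha hb
    refine lt_of_lt_of_le ?_ hQ
    have : 2 ^ (2 * J) = 2 ^ J * 2 ^ J := by rw [two_mul, pow_add]
    rw [this]
    have hb' : b + 1 ≤ 2 ^ J := hb
    calc a + 2 ^ J * b < 2 ^ J + 2 ^ J * b := Nat.add_lt_add_right ha _
      _ = 2 ^ J * (b + 1) := by ring
      _ ≤ 2 ^ J * 2 ^ J := Nat.mul_le_mul_left _ hb'
  rw [ZMod.natCast_eq_natCast_iff] at h
  have h2 : w + 2 ^ J * x = v + 2 ^ J * v' :=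
    Nat.ModEq.eq_of_lt_of_lt h (hlt w x hw hx) (hlt v v' hv hv')
  have h3 : (w + 2 ^ J * x) % 2 ^ J = (v + 2 ^ J * v') % 2 ^ J := by rw [h2]
  rw [Nat.add_mul_mod_self_left, Nat.add_mul_mod_self_left, Nat.mod_eq_of_lt hw,
    Nat.mod_eq_of_lt hv] at h3
  refine ⟨h3.symm, ?_⟩
  rw [h3] at h2
  have h4 := Nat.add_left_cancel h2
  exact (Nat.eq_of_mul_eq_mul_left (Nat.two_pow_pos J) h4).symm

theorem bad : S_BAD := by
  classical
  intro J Q hJ hQ hQ1 hQ2 β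
  have : NeZero Q := ⟨hQ.ne_zero⟩
  have : Fact Q.Prime := ⟨hQ⟩
  -- the exceptional sets
  let A : ((Fin (2 ^ J) × Fin (2 ^ J)) × (Fin (2 ^ J) × Fin (2 ^ J))) × Fin J → Finset (Y J Q) :=
    fun p => Finset.univ.filter fun y =>
      (((p.1.2.1 : ℕ), (p.1.2.2 : ℕ)) ≠ ((p.1.1.1 : ℕ), (p.1.1.2 : ℕ))) ∧
      xi J Q β p.1.1.1 y p.2 - xi' J Q β p.1.1.2 y p.2 =
        ((p.1.2.1 : ℕ) : ZMod Q) + (2 ^ J * ((p.1.2.2 : ℕ) : ZMod Q))
  have hA : ∀ p, (A p).card ≤ nN J Q / Q := by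
    rintro ⟨⟨⟨w, x⟩, ⟨v, v'⟩⟩, i⟩
    rw [Nat.le_div_iff_mul_le hQ.pos, mul_comm]
    rcases (A ⟨⟨⟨w, x⟩, ⟨v, v'⟩⟩, i⟩).eq_empty_or_nonempty with he | ⟨y0, hy0⟩
    · rw [he]; simp
    · -- the slopes differ
      set s : ZMod Q := (slope β (2 ^ J) w i : ZMod Q) with hs
      set s' : ZMod Q := (slope (!β) (2 ^ J + 1) x i : ZMod Q) with hs'
      have key : ∀ y ∈ A ⟨⟨⟨w, x⟩, ⟨v, v'⟩⟩, i⟩, (s - s') * (y i).2 =
          ((v : ℕ) : ZMod Q) + 2 ^ J * ((v' : ℕ) : ZMod Q) - (((w : ℕ) : ZMod Q) +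
            2 ^ J * ((x : ℕ) : ZMod Q)) := by
        intro y hy
        have h := (Finset.mem_filter.1 hy).2.2
        simp only [xi, xi'] at h
        rw [← hs, ← hs'] at h
        rw [← h]
        ring
      have hne : s - s' ≠ 0 := by
        intro h0
        have h1 := key y0 hy0
        rw [h0, zero_mul] at h1
        have h2 : (((w : ℕ) + 2 ^ J * (x : ℕ) : ℕ) : ZMod Q) =
            (((v : ℕ) + 2 ^ J * (v' : ℕ) : ℕ) : ZMod Q) := by
          push_cast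
          exact (sub_eq_zero.1 h1.symm).symm
        obtain ⟨h3, h4⟩ := nat_eq hQ1 v.isLt v'.isLt w.isLt x.isLt h2
        exact (Finset.mem_filter.1 hy0).2.1 (Prod.ext h3 h4)
      refine fibre J Q i ((((v : ℕ) : ZMod Q) + 2 ^ J * ((v' : ℕ) : ZMod Q) -
        (((w : ℕ) : ZMod Q) + 2 ^ J * ((x : ℕ) : ZMod Q))) / (s - s')) _ ?_
      intro y hy
      rw [eq_div_iff hne, mul_comm]
      exact key y hy
  have hsub : {y : Y J Q | ¬ GoodY J Q β y} ⊆
      ((Finset.univ.biUnion A : Finset (Y J Q)) : Set (Y J Q)) := by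
    intro y hy
    have hy' : ¬ GoodY J Q β y := hy
    unfold GoodY at hy'
    push Not at hy'
    obtain ⟨w, hw, x, hx, v, hv, v', hv', hne, i, _, _, _, hi⟩ := hy'
    refine Finset.mem_coe.2 (Finset.mem_biUnion.2
      ⟨⟨⟨⟨⟨w, hw⟩, ⟨x, hx⟩⟩, ⟨⟨v, hv⟩, ⟨v', hv'⟩⟩⟩, i⟩, Finset.mem_univ _, ?_⟩)
    exact Finset.mem_filter.2 ⟨Finset.mem_univ _, hne, hi⟩
  have h1 : {y : Y J Q | ¬ GoodY J Q β y}.ncard ≤ (Finset.univ.biUnion A).card := by
    rw [← Set.ncard_coe_finset]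
    exact Set.ncard_le_ncard hsub (Finset.finite_toSet _)
  have h2 : (Finset.univ.biUnion A).card ≤
      (Finset.univ : Finset (((Fin (2 ^ J) × Fin (2 ^ J)) × (Fin (2 ^ J) × Fin (2 ^ J))) ×
        Fin J)).card * (nN J Q / Q) :=
    Finset.card_biUnion_le_card_mul _ _ _ (fun p _ => hA p)
  have h3 : (Finset.univ : Finset (((Fin (2 ^ J) × Fin (2 ^ J)) × (Fin (2 ^ J) × Fin (2 ^ J))) ×
        Fin J)).card = J * 2 ^ (4 * J) := by
    rw [Finset.card_univ]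
    simp only [Fintype.card_prod, Fintype.card_fin]
    ring
  rw [h3] at h2
  calc Q * {y : Y J Q | ¬ GoodY J Q β y}.ncard ≤ Q * (J * 2 ^ (4 * J) * (nN J Q / Q)) :=
        Nat.mul_le_mul_left _ (h1.trans h2)
    _ = J * 2 ^ (4 * J) * (Q * (nN J Q / Q)) := by ring
    _ ≤ J * 2 ^ (4 * J) * nN J Q := Nat.mul_le_mul_left _ (Nat.mul_div_le _ _)

end Pool.Agent.W970.DL
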