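import Pool.Agent.W999.DL.Stms

/-! # DL-COUNT : few lengths with bad codes -/

namespace Pool.Agent.W970.DL

open Pool.Agent.W999.DL

theorem count : S_BAD → S_COUNT := by
  classical
  intro hbad J Q n code hJ hQ hQ1 hQ2 ⟨hn1, hn2⟩
  have : NeZero Q := ⟨hQ.ne_zero⟩
  set N := nN J Q with hN
  have hN0 : 0 < N := by rw [hN]; unfold nN; exact Nat.pow_pos hQ.pos
  have hT : tT J Q = 2 ^ (J + 1) * N * N := rfl
  set T := tT J Q with hTdef
  have hT0 : 0 < T := by rw [hT]; positivity
  have hb0 := hbad J Q hJ hQ hQ1 hQ2 false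
  have hb1 := hbad J Q hJ hQ hQ1 hQ2 true
  set B0 : Finset (Y J Q) := Finset.univ.filter fun y => ¬ GoodY J Q false y with hB0
  set B1 : Finset (Y J Q) := Finset.univ.filter fun y => ¬ GoodY J Q true y with hB1
  have e0 : {y : Y J Q | ¬ GoodY J Q false y}.ncard = B0.card := by
    rw [← Set.ncard_coe_finset]
    congr 1
    ext y
    simp [hB0]
  have e1 : {y : Y J Q | ¬ GoodY J Q true y}.ncard = B1.card := by
    rw [← Set.ncard_coe_finset]
    congr 1
    ext y
    simp [hB1]
  rw [e0] at hb0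
  rw [e1] at hb1
  -- bad codes of the first kind
  set S0 : Finset ℕ := (Finset.range T).filter fun τ => ¬ GoodY J Q false (code τ).2.1 with hS0
  set S1 : Finset ℕ := (Finset.range T).filter fun τ => ¬ GoodY J Q true (code τ).2.2 with hS1
  have hS0c : S0.card ≤ B0.card * (2 ^ (J + 1) * N) := by
    rw [← Finset.card_range (2 ^ (J + 1) * N), ← Finset.card_product]
    apply Finset.card_le_card_of_injOn (fun τ => ((code τ).2.1, τ / N))
    · intro τ hτ
      obtain ⟨h1, h2⟩ := Finset.mem_filter.1 hτ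
      refine Finset.mem_coe.2 (Finset.mem_product.2 ⟨?_, ?_⟩)
      · exact Finset.mem_filter.2 ⟨Finset.mem_univ _, h2⟩
      · rw [Finset.mem_range, Nat.div_lt_iff_lt_mul hN0, ← hT]
        exact Finset.mem_range.1 h1
    · intro τ hτ τ' hτ' heq
      have h1 := Finset.mem_range.1 (Finset.mem_filter.1 hτ).1
      have h2 := Finset.mem_range.1 (Finset.mem_filter.1 hτ').1
      have h3 := congrArg Prod.fst heq
      have h4 : τ / N = τ' / N := congrArg Prod.snd heq
      have h5 := (hn1 τ h1 τ' h2).1 h3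
      rw [← Nat.div_add_mod τ N, ← Nat.div_add_mod τ' N, h4, h5]
  have hS1c : S1.card ≤ 2 ^ (J + 1) * B1.card * N := by
    have hz : (Finset.univ : Finset (ZMod (2 ^ (J + 1)))).card = 2 ^ (J + 1) := by
      rw [Finset.card_univ, ZMod.card]
    have hprod : 2 ^ (J + 1) * B1.card * N =
        (((Finset.univ : Finset (ZMod (2 ^ (J + 1)))) ×ˢ B1) ×ˢ Finset.range N).card := by
      rw [Finset.card_product, Finset.card_product, hz, Finset.card_range]
    rw [hprod]
    apply Finset.card_le_card_of_injOn (fun τ => (((code τ).1, (code τ).2.2), τ % N))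
    · intro τ hτ
      obtain ⟨h1, h2⟩ := Finset.mem_filter.1 hτ
      refine Finset.mem_coe.2 (Finset.mem_product.2 ⟨Finset.mem_product.2 ⟨Finset.mem_univ _, ?_⟩, ?_⟩)
      · exact Finset.mem_filter.2 ⟨Finset.mem_univ _, h2⟩
      · exact Finset.mem_range.2 (Nat.mod_lt _ hN0)
    · intro τ hτ τ' hτ' heq
      have h1 := Finset.mem_range.1 (Finset.mem_filter.1 hτ).1
      have h2 := Finset.mem_range.1 (Finset.mem_filter.1 hτ').1
      have h3 : ((code τ).1, (code τ).2.2) = ((code τ').1, (code τ').2.2) := congrArg Prod.fst heq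
      have h4 : τ % N = τ' % N := congrArg Prod.snd heq
      obtain ⟨h3a, h3b⟩ := Prod.mk.inj h3
      have h5 := (hn2 τ h1 τ' h2).1 ⟨h3a, h3b⟩
      rw [← Nat.div_add_mod τ N, ← Nat.div_add_mod τ' N, h4, h5]
  -- all lengths
  have hfin : ({t | t ≤ n ∧ ¬ Good J Q (code (t % T))} : Set ℕ).ncard ≤
      (S0.card + S1.card) * (n / T + 1) := by
    have hsub : ({t | t ≤ n ∧ ¬ Good J Q (code (t % T))} : Set ℕ) =
        (((Finset.range (n + 1)).filter fun t => ¬ Good J Q (code (t % T)) : Finset ℕ) : Set ℕ) := by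
      ext t
      simp
    rw [hsub, Set.ncard_coe_finset]
    refine le_trans ?_ (Nat.mul_le_mul_right _ (Finset.card_union_le S0 S1))
    rw [← Finset.card_range (n / T + 1), ← Finset.card_product]
    apply Finset.card_le_card_of_injOn (fun t => (t % T, t / T))
    · intro t ht
      obtain ⟨h1, h2⟩ := Finset.mem_filter.1 ht
      have hmod := Nat.mod_lt t hT0
      refine Finset.mem_coe.2 (Finset.mem_product.2 ⟨?_, ?_⟩)
      · by_cases h : GoodY J Q false (code (t % T)).2.1
        · refine Finset.mem_union_right _ (Finset.mem_filter.2 ⟨Finset.mem_range.2 hmod, ?_⟩)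
          intro h'
          exact h2 ⟨h, h'⟩
        · exact Finset.mem_union_left _ (Finset.mem_filter.2 ⟨Finset.mem_range.2 hmod, h⟩)
      · rw [Finset.mem_range]
        exact Nat.lt_succ_of_le (Nat.div_le_div_right (Nat.lt_succ_iff.1 (Finset.mem_range.1 h1)))
    · intro t _ t' _ heq
      have h3 : t % T = t' % T := congrArg Prod.fst heq
      have h4 : t / T = t' / T := congrArg Prod.snd heq
      rw [← Nat.div_add_mod t T, ← Nat.div_add_mod t' T, h3, h4]
  have hTn : T * (n / T + 1) ≤ n + T := by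
    have := Nat.mul_div_le n T
    rw [mul_add, mul_one]
    omega
  have k0 : Q * S0.card ≤ J * 2 ^ (4 * J) * T := by
    calc Q * S0.card ≤ Q * (B0.card * (2 ^ (J + 1) * N)) := Nat.mul_le_mul_left _ hS0c
      _ = (Q * B0.card) * (2 ^ (J + 1) * N) := by ring
      _ ≤ (J * 2 ^ (4 * J) * N) * (2 ^ (J + 1) * N) := Nat.mul_le_mul_right _ hb0
      _ = J * 2 ^ (4 * J) * T := by rw [hT]; ring
  have k1 : Q * S1.card ≤ J * 2 ^ (4 * J) * T := by
    calc Q * S1.card ≤ Q * (2 ^ (J + 1) * B1.card * N) := Nat.mul_le_mul_left _ hS1c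
      _ = (Q * B1.card) * (2 ^ (J + 1) * N) := by ring
      _ ≤ (J * 2 ^ (4 * J) * N) * (2 ^ (J + 1) * N) := Nat.mul_le_mul_right _ hb1
      _ = J * 2 ^ (4 * J) * T := by rw [hT]; ring
  calc Q * ({t | t ≤ n ∧ ¬ Good J Q (code (t % T))} : Set ℕ).ncard
      ≤ Q * ((S0.card + S1.card) * (n / T + 1)) := Nat.mul_le_mul_left _ hfin
    _ = (Q * S0.card + Q * S1.card) * (n / T + 1) := by ring
    _ ≤ (J * 2 ^ (4 * J) * T + J * 2 ^ (4 * J) * T) * (n / T + 1) :=
        Nat.mul_le_mul_right _ (Nat.add_le_add k0 k1)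
    _ = (T * (n / T + 1)) * (2 * J * 2 ^ (4 * J)) := by ring
    _ ≤ (n + T) * (2 * J * 2 ^ (4 * J)) := Nat.mul_le_mul_right _ hTn

end Pool.Agent.W970.DL
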