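import Pool.Agent.W999.DL.Stms

/-! # DL-FIN : consequences of the bound -/

namespace Pool.Agent.W970.DL

open Pool.Agent.W999.DL
open Filter Topology

theorem fin : S_FIN := by
  intro f ⟨C, hC⟩
  have hlim : Tendsto (fun n : ℕ => C * (2 : ℝ) ^ (-(Real.sqrt (Real.logb 2 n) / 20))) atTop
      (𝓝 0) := by
    have h1 : Tendsto (fun n : ℕ => Real.logb 2 (n : ℝ)) atTop atTop :=
      (Real.tendsto_logb_atTop (by norm_num)).comp tendsto_natCast_atTop_atTop
    have h2 : Tendsto (fun n : ℕ => Real.sqrt (Real.logb 2 (n : ℝ))) atTop atTop :=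
      Real.tendsto_sqrt_atTop.comp h1
    have h3 : Tendsto (fun n : ℕ => Real.sqrt (Real.logb 2 (n : ℝ)) / 20) atTop atTop :=
      h2.atTop_div_const (by norm_num)
    have h4 : Tendsto (fun n : ℕ => -(Real.sqrt (Real.logb 2 (n : ℝ)) / 20)) atTop atBot :=
      tendsto_neg_atTop_atBot.comp h3
    have h5 := (tendsto_rpow_atBot_of_base_gt_one (2 : ℝ) (by norm_num)).comp h4
    have h6 := h5.const_mul C
    rw [mul_zero] at h6
    exact h6
  have hpos : ∀ n : ℕ, 1 ≤ n → 0 < (n : ℝ) * Real.sqrt n := by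
    intro n hn
    have : (0 : ℝ) < n := by exact_mod_cast hn
    positivity
  have hzero : Tendsto (fun n : ℕ => (f n : ℝ) / ((n : ℝ) * Real.sqrt n)) atTop (𝓝 0) := by
    refine squeeze_zero' ?_ ?_ hlim
    · exact Eventually.of_forall fun n => by positivity
    · filter_upwards [eventually_ge_atTop 1] with n hn
      rw [div_le_iff₀ (hpos n hn)]
      have := hC n hn
      linarith
  refine ⟨hzero, ?_⟩
  rintro ⟨D, hD⟩
  have h6 : (0 : ℝ) < Real.sqrt 6 := Real.sqrt_pos.2 (by norm_num)
  have hone : Tendsto (fun n : ℕ => (f n : ℝ) / ((n : ℝ) * Real.sqrt n)) atTop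
      (𝓝 (1 / Real.sqrt 6)) := by
    rw [tendsto_iff_norm_sub_tendsto_zero]
    have hD0 : Tendsto (fun n : ℕ => |D| / Real.sqrt (n : ℝ)) atTop (𝓝 0) :=
      (Real.tendsto_sqrt_atTop.comp tendsto_natCast_atTop_atTop).const_div_atTop |D|
    refine squeeze_zero' ?_ ?_ hD0
    · exact Eventually.of_forall fun n => norm_nonneg _
    · filter_upwards [eventually_ge_atTop 3] with n hn
      have hn0 : (0 : ℝ) < n := by
        have : 0 < n := by omega
        exact_mod_cast this
      have hs0 : 0 < Real.sqrt (n : ℝ) := Real.sqrt_pos.2 hn0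
      have h1 := hD n hn
      have h2 : (f n : ℝ) / ((n : ℝ) * Real.sqrt n) - 1 / Real.sqrt 6 =
          ((f n : ℝ) - (n : ℝ) * Real.sqrt n / Real.sqrt 6) / ((n : ℝ) * Real.sqrt n) := by
        field_simp
      rw [Real.norm_eq_abs, h2, abs_div, abs_of_pos (hpos n (by omega)),
        div_le_div_iff₀ (hpos n (by omega)) hs0]
      have h3 : D * n ≤ |D| * n := mul_le_mul_of_nonneg_right (le_abs_self D) hn0.le
      have h4 := mul_le_mul_of_nonneg_right (h1.trans h3) hs0.le
      linarith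
  have := tendsto_nhds_unique hzero hone
  have h7 : 0 < 1 / Real.sqrt 6 := by positivity
  linarith

end Pool.Agent.W970.DL
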