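import Pool.Agent.W999.DL.Stms

/-! # DL-LAM : from `Lab` to `lam` -/

namespace Pool.Agent.W970.DL

open Pool.Agent.W999.DL

theorem lam_le : S_LAM := by
  classical
  intro n N ⟨L, φ, F, hF, hmem, hcons⟩
  obtain ⟨e, he⟩ : ∃ e : L → ℕ, Set.InjOn e F := by
    refine ⟨fun x => if h : x ∈ F then (F.equivFin ⟨x, h⟩ : ℕ) else 0, ?_⟩
    intro x hx y hy hxy
    have hx' : x ∈ F := hx
    have hy' : y ∈ F := hy
    simp only [dif_pos hx', dif_pos hy'] at hxy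
    have := F.equivFin.injective (Fin.ext hxy)
    exact congrArg Subtype.val this
  let ψ : (i : ℕ) → Fin i → ℕ := fun i u => e (φ i u)
  let R : ℕ → ℕ → (Σ i : ℕ, Fin i × Fin i) → Prop := fun a b z =>
    3 ≤ z.1 ∧ z.1 ≤ n ∧ ψ z.1 z.2.1 = a ∧ ψ z.1 z.2.2 = b
  have hdl : IsDistanceLabeling n ψ := by
    refine ⟨fun a b => if h : ∃ z, R a b z then
      (cdist h.choose.1 h.choose.2.1 h.choose.2.2 : ℤ) else 0, ?_⟩
    intro i hi hi' u v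
    have h : ∃ z, R (ψ i u) (ψ i v) z := ⟨⟨i, u, v⟩, hi, hi', rfl, rfl⟩
    simp only [dif_pos h]
    obtain ⟨k1, k2, k3, k4⟩ := h.choose_spec
    have m1 := hmem _ (Set.mem_Icc.2 ⟨k1, k2⟩) _ h.choose.2.1.isLt
    have m2 := hmem _ (Set.mem_Icc.2 ⟨k1, k2⟩) _ h.choose.2.2.isLt
    have m3 := hmem i (Set.mem_Icc.2 ⟨hi, hi'⟩) _ u.isLt
    have m4 := hmem i (Set.mem_Icc.2 ⟨hi, hi'⟩) _ v.isLt
    have e1 : φ h.choose.1 h.choose.2.1 = φ i u := he m1 m3 k3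
    have e2 : φ h.choose.1 h.choose.2.2 = φ i v := he m2 m4 k4
    have := hcons _ (Set.mem_Icc.2 ⟨k1, k2⟩) i (Set.mem_Icc.2 ⟨hi, hi'⟩) _ h.choose.2.1.isLt
      _ h.choose.2.2.isLt _ u.isLt _ v.isLt e1 e2
    exact_mod_cast this
  have hsub : ({x | ∃ i, 3 ≤ i ∧ i ≤ n ∧ ∃ u : Fin i, ψ i u = x} : Set ℕ) ⊆
      ((F.image e : Finset ℕ) : Set ℕ) := by
    rintro x ⟨i, h1, h2, u, rfl⟩
    simp only [Finset.coe_image, Set.mem_image, Finset.mem_coe]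
    exact ⟨_, hmem i (Set.mem_Icc.2 ⟨h1, h2⟩) u u.isLt, rfl⟩
  have hcard : ({x | ∃ i, 3 ≤ i ∧ i ≤ n ∧ ∃ u : Fin i, ψ i u = x} : Set ℕ).ncard ≤ N := by
    refine (Set.ncard_le_ncard hsub (Finset.finite_toSet _)).trans ?_
    rw [Set.ncard_coe_finset]
    exact Finset.card_image_le.trans hF
  refine le_trans (Nat.sInf_le ?_) hcard
  exact ⟨ψ, hdl, rfl⟩

end Pool.Agent.W970.DL
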